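import Pool.Agent.Lib.MP_75a307_lc.Refl

/-!
If `κ` is `ν`-strong for an inaccessible `ν > κ`, then measure one many `α < κ` carry a bad
witness of length below `κ`.
-/

namespace Pool.Agent.Results.MP_75a307_lc.Upper

open Pool.Agent.Lib.MP_1d770b_lc Pool.Agent.Lib.MP_75a307_lc

universe u

theorem result {M : Type u} (E : M → M → Prop) (hZF : IsZF E) (hAC : Choice E) (κ ν : M)
    (hκ : E κ ν) (hν : Inacc E Set.univ ν) (h : Strong E κ ν) :
    Conc E κ fun α => ∃ μ, E μ κ ∧ Bad E α μ := by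
  have : ZF E := ⟨hZF⟩
  exact upper hAC h hκ hν

end Pool.Agent.Results.MP_75a307_lc.Upper
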